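import Pool.Agent.AB27.MainC

/-!
# MP_ae599a_gt : asymptotic grid minors and asymptotic dimension

Let `X` be a nonempty length space such that, for some scale `ρ > 0`, the bounded cuts of `X` at scale
`ρ` (cocycles of the Rips complex with values in `{-1, 0, 1}` and bounded support) span a subgroup of
finite rank in the first integral cohomology of the Rips complex. If some `n × n` grid is not an
asymptotic minor of `X` then `X` is quasi-isometric to a tree, and in particular the asymptotic
dimension of `X` is at most `1`.

The definitions `IsLengthSpace`, `IsCocycle`, `IsCob`, `gridGraph`, `IsAsymptoticMinor`, `AsdimLE` are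
in `Pool.Agent.AG35.Stmt`, `IsQuasiTree` is in `Pool.Agent.AG35.QStmt`, and `IsBddCut`, `FewBddCuts` are
in `Pool.Agent.AB27.Stmt`.
-/

theorem Pool.Agent.Results.MP_ae599a_gt.FewBoundedCuts.result {X : Type*} [MetricSpace X]
    [Nonempty X] (hX : AG35.IsLengthSpace X)
    (hH : ∃ ρ : ℝ, 0 < ρ ∧ AB27.FewBddCuts ρ X)
    (hn : ∃ n : ℕ, ¬ AG35.IsAsymptoticMinor (AG35.gridGraph n) X) :
    AG35.IsQuasiTree X ∧ AG35.AsdimLE 1 X :=
  AB27.main_few hX hH hn
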